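import Pool.Agent.Helper72.SE.Stm

/-!
# Local Cheeger inequality
-/

set_option autoImplicit false

namespace Pool.Agent.Helper72.SE

open Finset

theorem Che.lay {V : Type} [Fintype V] [DecidableEq V] (P : V → V → ℝ) (m : ℕ) (φ : ℝ)
    (hS : SSE P m φ) (n : ℕ) : ∀ h : V → ℝ, (∀ u, 0 ≤ h u) →
    (univ.filter fun u => 0 < h u).card ≤ n → n ≤ m →
    ∑ u, ∑ v, P u v * min (h u) (h v) ≤ (1 - φ) * ∑ u, h u := by
  induction n with
  | zero =>
    intro h hh hn _
    have h0 : ∀ u, h u = 0 := by
      intro u
      by_contra hne
      have hpos : 0 < h u := lt_of_le_of_ne (hh u) (Ne.symm hne)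
      have : (univ.filter fun u => 0 < h u) = ∅ := Finset.card_eq_zero.1 (Nat.le_zero.1 hn)
      have hu : u ∈ (univ.filter fun u => 0 < h u) := by simp [hpos]
      rw [this] at hu
      simp at hu
    simp [h0]
  | succ n ih =>
    intro h hh hn hm
    set s := univ.filter fun u => 0 < h u with hs
    have hmem : ∀ u, u ∈ s ↔ 0 < h u := by
      intro u
      simp [hs]
    by_cases hse : s.Nonempty
    · obtain ⟨u0, hu0, hmin⟩ := s.exists_min_image h hse
      set c := h u0 with hc
      have hcpos : 0 < c := (hmem u0).1 hu0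
      set h1 : V → ℝ := fun u => if u ∈ s then h u - c else 0 with hh1
      have e0 : ∀ u, h1 u = if u ∈ s then h u - c else 0 := fun u => rfl
      have hnn : ∀ u, 0 ≤ h1 u := by
        intro u
        rw [e0]
        split_ifs with hu
        · linarith [hmin u hu]
        · exact le_refl 0
      have hz : ∀ u, u ∉ s → h u = 0 := by
        intro u hu
        rw [hmem] at hu
        linarith [hh u, not_lt.1 hu]
      have hsub : (univ.filter fun u => 0 < h1 u) ⊆ s.erase u0 := by
        intro u hu
        rw [mem_filter] at hu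
        have h2 := hu.2
        rw [e0] at h2
        rw [mem_erase]
        by_cases hus : u ∈ s
        · refine ⟨?_, hus⟩
          intro he
          rw [if_pos hus, he] at h2
          linarith
        · rw [if_neg hus] at h2
          exact absurd h2 (lt_irrefl 0)
      have hcard : (univ.filter fun u => 0 < h1 u).card ≤ n := by
        have h3 := card_le_card hsub
        rw [card_erase_of_mem hu0] at h3
        omega
      have hI := ih h1 hnn hcard (by omega)
      have e1 : ∀ u v, P u v * min (h u) (h v) = P u v * min (h1 u) (h1 v) +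
          c * (if u ∈ s then (if v ∈ s then P u v else 0) else 0) := by
        intro u v
        rw [e0, e0]
        by_cases hu : u ∈ s
        · by_cases hv : v ∈ s
          · simp only [hu, hv, if_true]
            rw [min_sub_sub_right]
            ring
          · simp only [hu, hv, if_true, if_false]
            rw [hz v hv, min_eq_right (hh u), min_eq_right (by linarith [hmin u hu])]
            ring
        · simp only [hu, if_false]
          by_cases hv : v ∈ s
          · simp only [hv, if_true]
            rw [hz u hu, min_eq_left (hh v), min_eq_left (by linarith [hmin v hv])]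
            ring
          · simp only [hv, if_false]
            rw [hz u hu, hz v hv]
            simp
      have e2 : ∀ u, h u = h1 u + c * (if u ∈ s then 1 else 0) := by
        intro u
        rw [e0]
        split_ifs with hu
        · ring
        · rw [hz u hu]
          ring
      have e3 : ∑ u, ∑ v, P u v * min (h u) (h v) = ∑ u, ∑ v, P u v * min (h1 u) (h1 v) +
          c * ∑ u ∈ s, ∑ v ∈ s, P u v := by
        have e5 : ∀ u, (∑ v, if u ∈ s then (if v ∈ s then P u v else 0) else 0) =
            if u ∈ s then ∑ v ∈ s, P u v else 0 := by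
          intro u
          by_cases hu : u ∈ s
          · simp only [hu, if_true]
            rw [sum_ite_mem, univ_inter]
          · simp only [hu, if_false, sum_const_zero]
        simp only [e1, sum_add_distrib, ← mul_sum, e5]
        rw [sum_ite_mem, univ_inter]
      have e4 : ∑ u, h u = ∑ u, h1 u + c * (s.card : ℝ) := by
        rw [sum_congr rfl fun u _ => e2 u, sum_add_distrib, ← mul_sum]
        congr 2
        rw [← sum_filter]
        have : (univ.filter fun u => u ∈ s) = s := by
          ext
          simp
        rw [this]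
        simp
      rw [e3, e4]
      have h5 := hS s (by omega)
      have h6 := mul_le_mul_of_nonneg_left h5 hcpos.le
      linarith
    · rw [not_nonempty_iff_eq_empty] at hse
      refine ih h hh ?_ (by omega)
      rw [← hs, hse]
      simp

theorem t_CHEEGER : S_CHEEGER := by
  intro V _ _ P hP m φ h0 h1 hS g hg hm
  have hsup : (univ.filter fun u => 0 < g u ^ 2) = univ.filter fun u => 0 < g u := by
    ext u
    simp only [mem_filter, mem_univ, true_and]
    constructor
    · intro h
      rcases (hg u).lt_or_eq with h2 | h2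
      · exact h2
      · rw [← h2] at h
        simp at h
    · intro h
      positivity
  have key := Che.lay P m φ hS m (fun u => g u ^ 2) (fun u => sq_nonneg _)
    (by rw [hsup]; exact hm) le_rfl
  set A := ∑ u, g u ^ 2 with hA
  set x := ∑ u, ∑ v, P u v * min (g u ^ 2) (g v ^ 2) with hx
  set F := ∑ u, ∑ v, P u v * (g u * g v) with hF
  have hA0 : 0 ≤ A := sum_nonneg fun u _ => sq_nonneg _
  have r1 : ∑ u, ∑ v, P u v * g u ^ 2 ≤ A := by
    refine sum_le_sum fun u _ => ?_
    rw [← sum_mul]
    nlinarith [hP.row u, sq_nonneg (g u)]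
  have r2 : ∑ u, ∑ v, P u v * g v ^ 2 ≤ A := by
    rw [sum_comm]
    refine sum_le_sum fun u _ => ?_
    rw [← sum_mul]
    have : ∑ i, P i u = ∑ i, P u i := sum_congr rfl fun i _ => hP.sy i u
    rw [this]
    nlinarith [hP.row u, sq_nonneg (g u)]
  have r3 : ∑ u, ∑ v, P u v * max (g u ^ 2) (g v ^ 2) ≤ 2 * A - x := by
    have e : ∀ u v, P u v * max (g u ^ 2) (g v ^ 2) = P u v * g u ^ 2 + P u v * g v ^ 2 -
        P u v * min (g u ^ 2) (g v ^ 2) := by
      intro u v
      have := min_add_max (g u ^ 2) (g v ^ 2)
      rw [← mul_add, ← mul_sub, ← this]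
      ring
    simp only [e, sum_sub_distrib, sum_add_distrib]
    rw [← hx]
    linarith
  have r4 : 2 * (1 + φ) * F ≤ (1 + φ) ^ 2 * x +
      ∑ u, ∑ v, P u v * max (g u ^ 2) (g v ^ 2) := by
    rw [hF, hx, mul_sum, mul_sum, ← sum_add_distrib]
    refine sum_le_sum fun u _ => ?_
    rw [mul_sum, mul_sum, ← sum_add_distrib]
    refine sum_le_sum fun v _ => ?_
    have hp := hP.nn u v
    have h3 : 2 * (1 + φ) * (g u * g v) ≤ (1 + φ) ^ 2 * min (g u ^ 2) (g v ^ 2) +
        max (g u ^ 2) (g v ^ 2) := by
      rcases le_total (g u) (g v) with hle | hle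
      · have h4 : g u ^ 2 ≤ g v ^ 2 := pow_le_pow_left₀ (hg u) hle 2
        rw [min_eq_left h4, max_eq_right h4]
        nlinarith [sq_nonneg ((1 + φ) * g u - g v)]
      · have h4 : g v ^ 2 ≤ g u ^ 2 := pow_le_pow_left₀ (hg v) hle 2
        rw [min_eq_right h4, max_eq_left h4]
        nlinarith [sq_nonneg ((1 + φ) * g v - g u)]
    have h5 := mul_le_mul_of_nonneg_left h3 hp
    nlinarith
  have r5 : 2 * (1 + φ) * F ≤ (2 * φ + φ ^ 2) * x + 2 * A := by nlinarith
  have r6 : (2 * φ + φ ^ 2) * x ≤ (2 * φ + φ ^ 2) * ((1 - φ) * A) :=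
    mul_le_mul_of_nonneg_left key (by nlinarith)
  have r7 : (1 + φ) * (2 * F) ≤ (1 + φ) * ((2 - φ ^ 2) * A) := by nlinarith
  have r8 := le_of_mul_le_mul_left r7 (by linarith)
  linarith

end Pool.Agent.Helper72.SE
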