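import Pool.Agent.Helper72.SE.Stm

/-!
Iteration of the conditioning steps (`S_ITER`), by helper59.
-/

set_option autoImplicit false

namespace Pool.Agent.Helper72.SE

open Finset Pool.Agent.H647R3.UG Pool.Agent.H573R3.SL Pool.Agent.TH522.UG Pool.Agent.TH522.US
  Pool.Agent.Helper72.SA

namespace It

variable {V : Type} [Fintype V] [DecidableEq V]

/-- averages of a function with values in `[0, 1]` over the conditionings -/
theorem avgf {D : ℕ} {L : ((V → Bool) → ℝ) →ₗ[ℝ] ℝ} (hL : SAh D L) (w : V) (S : Finset V)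
    (hw : w ∈ S) (hS : S.card ≤ D) (f : (V → Bool) → ℝ) (hf : Dep S f) (h0 : ∀ x, 0 ≤ f x)
    (h1 : ∀ x, f x ≤ 1) : ∑ a, pr L w a * cnd L w a f = L f := by
  have e1 : ∀ a, pr L w a * cnd L w a f = L (fun x => ind w a x * f x) := by
    intro a
    show pr L w a * (L (fun x => ind w a x * f x) / pr L w a) = _
    by_cases ha : pr L w a = 0
    · rw [ha, zero_mul]
      have h2 : 0 ≤ L (fun x => ind w a x * f x) :=
        hL.junta S hS _ (Mx.dep_mul (Mx.dep_ind w a _ hw) hf) fun x =>
          mul_nonneg (Mx.ind_nonneg w a x) (h0 x)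
      have h3 : 0 ≤ L (fun x => ind w a x - ind w a x * f x) := by
        refine hL.junta S hS _ ?_ fun x => ?_
        · intro x y h
          have d1 := Mx.dep_mul (Mx.dep_ind w a S hw) hf x y h
          have d2 := Mx.dep_ind w a S hw x y h
          show ind w a x - ind w a x * f x = ind w a y - ind w a y * f y
          simp only at d1
          rw [d1, d2]
        · have := mul_le_mul_of_nonneg_left (h1 x) (Mx.ind_nonneg w a x)
          linarith
      have h4 : (fun x : V → Bool => ind w a x - ind w a x * f x) =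
          ind w a - fun x => ind w a x * f x := rfl
      rw [h4, map_sub] at h3
      have h5 : L (ind w a) = 0 := ha
      linarith
    · rw [mul_div_cancel₀ _ ha]
  simp only [e1]
  rw [← map_sum]
  congr 1
  funext x
  rw [Finset.sum_apply, ← Finset.sum_mul, FB.sum_ind, one_mul]

theorem avg_pr {D : ℕ} (hD : 3 ≤ D) {L : ((V → Bool) → ℝ) →ₗ[ℝ] ℝ} (hL : SAh D L) (w u : V)
    (b : Bool) : ∑ a, pr L w a * pr (cnd L w a) u b = pr L u b :=
  avgf hL w {w, u} (by simp) (card_le_two.trans (by omega)) (ind u b)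
    (Mx.dep_ind u b _ (by simp)) (Mx.ind_nonneg u b) (Mx.ind_le_one u b)

theorem avg_pr2 {D : ℕ} (hD : 3 ≤ D) {L : ((V → Bool) → ℝ) →ₗ[ℝ] ℝ} (hL : SAh D L) (w u v : V)
    (b c : Bool) : ∑ a, pr L w a * pr2 (cnd L w a) u v b c = pr2 L u v b c :=
  avgf hL w {w, u, v} (by simp) (card_le_three.trans (by omega)) (fun x => ind u b x * ind v c x)
    (Mx.dep_mul (Mx.dep_ind u b _ (by simp)) (Mx.dep_ind v c _ (by simp)))
    (fun x => mul_nonneg (Mx.ind_nonneg u b x) (Mx.ind_nonneg v c x))
    (fun x => mul_le_one₀ (Mx.ind_le_one u b x) (Mx.ind_nonneg v c x) (Mx.ind_le_one v c x))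

/-- the energy is a martingale -/
theorem avg_En {D : ℕ} (hD : 3 ≤ D) {L : ((V → Bool) → ℝ) →ₗ[ℝ] ℝ} (hL : SAh D L)
    (P : V → V → ℝ) (w : V) : ∑ a, pr L w a * En P (cnd L w a) = En P L := by
  unfold En
  simp only [mul_sub, sum_sub_distrib, mul_sum]
  congr 1
  · rw [sum_comm]
    exact sum_congr rfl fun u _ => avg_pr hD hL w u true
  · rw [sum_comm]
    refine sum_congr rfl fun u _ => ?_
    rw [sum_comm]
    refine sum_congr rfl fun v _ => ?_
    rw [← avg_pr2 hD hL w u v true true, mul_sum]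
    exact sum_congr rfl fun a _ => by ring

theorem En_nonneg {D : ℕ} (hD : 3 ≤ D) {L : ((V → Bool) → ℝ) →ₗ[ℝ] ℝ} (hL : SAh D L)
    (P : V → V → ℝ) (hP : Ker P) : 0 ≤ En P L := by
  have hf : FctS 3 L := Sx.fct hD hD hL
  unfold En
  rw [sub_nonneg]
  refine sum_le_sum fun u _ => ?_
  calc ∑ v, P u v * pr2 L u v true true ≤ ∑ v, P u v * pr L u true :=
        sum_le_sum fun v _ => mul_le_mul_of_nonneg_left (pr2_le_left hf u v true true) (hP.nn u v)
    _ = (∑ v, P u v) * pr L u true := by rw [sum_mul]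
    _ ≤ 1 * pr L u true := mul_le_mul_of_nonneg_right (hP.row u) (hf.nn u true)
    _ = pr L u true := one_mul _

theorem Ph_nonneg {D : ℕ} (hD : 3 ≤ D) {L : ((V → Bool) → ℝ) →ₗ[ℝ] ℝ} (hL : SAh D L) :
    0 ≤ Ph L := by
  have hf : FctS 3 L := Sx.fct hD hD hL
  exact sum_nonneg fun v _ => (vr_bounds hf v).1

end It

open It in
theorem t_ITER : S_ITER := by
  intro V _ _ P hP Q n0 hn0 hQS hQm hQc a0 θ e k hθ he hk ha0 hstep r hr L hQ hPh hEn
  by_contra hcon
  have hno : ∀ L', Q 0 L' → En P L' ≤ 2 * e * k → a0 ≤ Ph L' := by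
    intro L' h1 h2
    by_contra h3
    exact hcon ⟨L', h1, not_le.1 h3, h2⟩
  have hQ0 : ∀ (j : ℕ) (L' : ((V → Bool) → ℝ) →ₗ[ℝ] ℝ), Q j L' → Q 0 L' := by
    intro j
    induction j with
    | zero => intro L' h; exact h
    | succ j ih => intro L' h; exact ih L' (hQm j L' h)
  have key : ∀ (j : ℕ) (L' : ((V → Bool) → ℝ) →ₗ[ℝ] ℝ), Q j L' →
      (j : ℝ) * θ * (k - En P L' / (2 * e)) ≤ Ph L' := by
    intro j
    induction j with
    | zero =>
      intro L' h
      have := Ph_nonneg (D := n0 + 0) (by omega) (hQS 0 L' h)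
      simpa using this
    | succ j ih =>
      intro L' h
      have hS := hQS (j + 1) L' h
      have hD : 3 ≤ n0 + (j + 1) := by omega
      have hP0 := Ph_nonneg hD hS
      have hE0 := En_nonneg hD hS P hP
      by_cases hE : En P L' ≤ 2 * e * k
      · have h1 : a0 ≤ Ph L' := hno L' (hQ0 _ L' h) hE
        obtain ⟨w, hw⟩ := hstep j L' (hQm j L' h) h1 hE
        have hone : ∑ a, pr L' w a = 1 := FB.one L' hS.one w
        have hav := avg_En hD hS P w
        have h2 : ∀ a, pr L' w a * ((j : ℝ) * θ * (k - En P (cnd L' w a) / (2 * e))) ≤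
            pr L' w a * Ph (cnd L' w a) := by
          intro a
          rcases (Sx.pr_nonneg hD hS w a).lt_or_eq with h3 | h3
          · exact mul_le_mul_of_nonneg_left (ih _ (hQc j L' h w a h3)) h3.le
          · rw [← h3, zero_mul, zero_mul]
        have h3 : ∑ a, pr L' w a * ((j : ℝ) * θ * (k - En P (cnd L' w a) / (2 * e))) =
            (j : ℝ) * θ * (k - En P L' / (2 * e)) := by
          have e1 : ∀ a, pr L' w a * ((j : ℝ) * θ * (k - En P (cnd L' w a) / (2 * e))) =
              (j : ℝ) * θ * k * pr L' w a -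
                (j : ℝ) * θ / (2 * e) * (pr L' w a * En P (cnd L' w a)) := fun a => by ring
          simp only [e1]
          rw [sum_sub_distrib, ← mul_sum, ← mul_sum, hone, hav]
          ring
        have h4 : (j : ℝ) * θ * (k - En P L' / (2 * e)) ≤ ∑ a, pr L' w a * Ph (cnd L' w a) := by
          rw [← h3]
          exact sum_le_sum fun a _ => h2 a
        have h5 : θ * (k - En P L' / (2 * e)) ≤ θ * k := by
          apply mul_le_mul_of_nonneg_left _ hθ.le
          have : 0 ≤ En P L' / (2 * e) := by positivity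
          linarith
        push_cast
        linarith
      · push Not at hE
        have h1 : k - En P L' / (2 * e) ≤ 0 := by
          rw [sub_nonpos, le_div_iff₀ (by positivity)]
          linarith
        have h2 : ((j + 1 : ℕ) : ℝ) * θ * (k - En P L' / (2 * e)) ≤ 0 :=
          mul_nonpos_of_nonneg_of_nonpos (by positivity) h1
        linarith
  have h1 := key r L hQ
  have h2 : k / 2 ≤ k - En P L / (2 * e) := by
    have : En P L / (2 * e) ≤ k / 2 := by
      rw [div_le_iff₀ (by positivity)]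
      linarith
    linarith
  have h3 : (r : ℝ) * θ * (k / 2) ≤ (r : ℝ) * θ * (k - En P L / (2 * e)) :=
    mul_le_mul_of_nonneg_left h2 (by positivity)
  have h4 : 4 * (k / 2) < (r : ℝ) * θ * (k / 2) := mul_lt_mul_of_pos_right hr (by positivity)
  linarith

end Pool.Agent.Helper72.SE
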