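import Pool.Agent.Helper72.SE.Stm

set_option autoImplicit false

/-!
Removal of the small sets of small expansion.
-/

namespace Pool.Agent.Helper72SE

open Finset Pool.Agent.Helper72.SE

/-- the sum over a square -/
def sq {V : Type} (P : V → V → ℝ) (S : Finset V) : ℝ := ∑ u ∈ S, ∑ v ∈ S, P u v

theorem sq_mono {V : Type} {P : V → V → ℝ} (h : ∀ u v, 0 ≤ P u v) {S S' : Finset V}
    (hS : S ⊆ S') : sq P S ≤ sq P S' := by
  unfold sq
  calc ∑ u ∈ S, ∑ v ∈ S, P u v ≤ ∑ u ∈ S, ∑ v ∈ S', P u v :=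
        sum_le_sum fun u _ => sum_le_sum_of_subset_of_nonneg hS fun v _ _ => h u v
    _ ≤ ∑ u ∈ S', ∑ v ∈ S', P u v :=
        sum_le_sum_of_subset_of_nonneg hS fun u _ _ => sum_nonneg fun v _ => h u v

theorem sq_union {V : Type} [DecidableEq V] {P : V → V → ℝ} (h : ∀ u v, 0 ≤ P u v)
    {S S' : Finset V} (hS : Disjoint S S') : sq P S + sq P S' ≤ sq P (S ∪ S') := by
  unfold sq
  rw [sum_union hS]
  refine add_le_add ?_ ?_
  · exact sum_le_sum fun u _ => sum_le_sum_of_subset_of_nonneg subset_union_left fun v _ _ => h u v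
  · exact sum_le_sum fun u _ => sum_le_sum_of_subset_of_nonneg subset_union_right fun v _ _ => h u v

theorem sq_killed {V : Type} [DecidableEq V] (P : V → V → ℝ) (R S : Finset V) :
    sq (fun u v => if u ∈ R ∨ v ∈ R then 0 else P u v) S = sq P (S \ R) := by
  unfold sq
  rw [← sum_subset (sdiff_subset : S \ R ⊆ S)]
  · refine sum_congr rfl fun u hu => ?_
    rw [mem_sdiff] at hu
    rw [← sum_subset (sdiff_subset : S \ R ⊆ S)]
    · refine sum_congr rfl fun v hv => ?_
      rw [mem_sdiff] at hv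
      change (if u ∈ R ∨ v ∈ R then 0 else P u v) = P u v
      rw [if_neg]
      tauto
    · intro v hv hv'
      rw [mem_sdiff] at hv'
      change (if u ∈ R ∨ v ∈ R then 0 else P u v) = 0
      rw [if_pos]
      tauto
  · intro u hu hu'
    rw [mem_sdiff] at hu'
    refine sum_eq_zero fun v _ => ?_
    change (if u ∈ R ∨ v ∈ R then 0 else P u v) = 0
    rw [if_pos]
    tauto

theorem t_REMOVE : S_REMOVE := by
  intro V _ _ P hP k a m φ h0 h1 hk hkV H
  have H' : ∀ S : Finset V, S.card = k → sq P S < (1 - φ) * (a + 1) := H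
  obtain ⟨R, hR, hmax⟩ := exists_max_image
    ((univ : Finset (Finset V)).filter fun R => R.card ≤ a ∧ (1 - φ) * R.card ≤ sq P R)
    (fun R => R.card) ⟨∅, mem_filter.2 ⟨mem_univ _, by simp, by simp [sq]⟩⟩
  rw [mem_filter] at hR
  refine ⟨R, hR.2.1, ?_⟩
  intro S hS
  change sq (fun u v => if u ∈ R ∨ v ∈ R then 0 else P u v) S ≤ _
  rw [sq_killed]
  by_contra hcon
  push Not at hcon
  have hBS : (S \ R).card ≤ S.card := card_le_card sdiff_subset
  have hBS' : ((S \ R).card : ℝ) ≤ S.card := by exact_mod_cast hBS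
  have hφ : 0 ≤ 1 - φ := by linarith
  have h2 : (1 - φ) * (S \ R).card ≤ (1 - φ) * S.card := mul_le_mul_of_nonneg_left hBS' hφ
  have hB : 0 < (S \ R).card := by
    rw [card_pos]
    by_contra hne
    rw [not_nonempty_iff_eq_empty] at hne
    rw [hne] at hcon
    have : sq P ∅ = 0 := by simp [sq]
    rw [this] at hcon
    have : 0 ≤ (1 - φ) * (S.card : ℝ) := by positivity
    linarith
  have hdis : Disjoint R (S \ R) := disjoint_sdiff
  have h3 := sq_union (P := P) hP.nn hdis
  have hcard : (R ∪ (S \ R)).card = R.card + (S \ R).card := card_union_of_disjoint hdis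
  have h4 : (1 - φ) * ((R ∪ (S \ R)).card : ℝ) ≤ sq P (R ∪ (S \ R)) := by
    rw [hcard]
    push_cast
    have := hR.2.2
    linarith [mul_add (1 - φ) (R.card : ℝ) ((S \ R).card : ℝ)]
  have h5 : a + 1 ≤ (R ∪ (S \ R)).card := by
    by_contra hlt
    push Not at hlt
    have := hmax (R ∪ (S \ R)) (by
      rw [mem_filter]
      exact ⟨mem_univ _, by omega, h4⟩)
    omega
  have hR1 := hR.2.1
  obtain ⟨S', hS1, hS2⟩ := exists_superset_card_eq (s := R ∪ (S \ R)) (n := k) (by omega)
    (by omega)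
  have h6 := H' S' hS2
  have h7 := sq_mono (P := P) hP.nn hS1
  have h8 : ((a : ℝ) + 1) ≤ ((R ∪ (S \ R)).card : ℝ) := by exact_mod_cast h5
  have h9 := mul_le_mul_of_nonneg_left h8 hφ
  linarith

end Pool.Agent.Helper72SE
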