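import Pool.Agent.Helper72.SE.Stm

/-!
Rounding of a fractional solution to a set of `k` vertices (`S_ROUND`), by helper59.
-/

set_option autoImplicit false

namespace Pool.Agent.Helper72.SE

open Finset

theorem t_ROUND : S_ROUND := by
  intro V _ _ P hP k e f y M hk hy0 hy1 hy hM0 hM1 hM2 hPM hf
  classical
  have hcol : ∀ v, ∑ u, P u v ≤ 1 := by
    intro v
    have : ∑ u, P u v = ∑ u, P v u := sum_congr rfl fun u _ => hP.sy u v
    rw [this]; exact hP.row v
  have hrowS : ∀ (u : V) (S : Finset V), ∑ v ∈ S, P u v ≤ 1 := fun u S =>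
    (sum_le_sum_of_subset_of_nonneg (subset_univ S) fun v _ _ => hP.nn u v).trans (hP.row u)
  have hcolS : ∀ (v : V) (S : Finset V), ∑ u ∈ S, P u v ≤ 1 := fun v S =>
    (sum_le_sum_of_subset_of_nonneg (subset_univ S) fun u _ _ => hP.nn u v).trans (hcol v)
  set T : Finset V := univ.filter (fun u => 1 / 2 ≤ y u) with hT
  have hyy : ∀ u, 0 ≤ y u * (1 - y u) := fun u => mul_nonneg (hy0 u) (by linarith [hy1 u])
  have hfk : 0 ≤ f * k := le_trans (sum_nonneg fun u _ => hyy u) hf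
  -- outside `T`
  have hout : ∑ u ∈ univ \ T, y u ≤ 2 * (f * k) := by
    calc ∑ u ∈ univ \ T, y u ≤ ∑ u ∈ univ \ T, 2 * (y u * (1 - y u)) := by
          refine sum_le_sum fun u hu => ?_
          have h1 : y u < 1 / 2 := by
            rw [mem_sdiff, hT, mem_filter] at hu
            by_contra h
            exact hu.2 ⟨mem_univ _, not_lt.1 h⟩
          nlinarith [hy0 u]
      _ ≤ ∑ u, 2 * (y u * (1 - y u)) :=
          sum_le_sum_of_subset_of_nonneg (subset_univ _) fun u _ _ => by linarith [hyy u]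
      _ = 2 * ∑ u, y u * (1 - y u) := by rw [mul_sum]
      _ ≤ 2 * (f * k) := by linarith
  have hTc : (T.card : ℝ) ≤ k + 2 * (f * k) := by
    have h1 : (T.card : ℝ) = ∑ u ∈ T, y u + ∑ u ∈ T, (1 - y u) := by
      rw [← sum_add_distrib]
      simp
    have h2 : ∑ u ∈ T, y u ≤ k := by
      rw [← hy]
      exact sum_le_sum_of_subset_of_nonneg (subset_univ _) fun u _ _ => hy0 u
    have h3 : ∑ u ∈ T, (1 - y u) ≤ 2 * (f * k) := by
      calc ∑ u ∈ T, (1 - y u) ≤ ∑ u ∈ T, 2 * (y u * (1 - y u)) := by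
            refine sum_le_sum fun u hu => ?_
            have h1 : 1 / 2 ≤ y u := (mem_filter.1 hu).2
            nlinarith [hy1 u]
        _ ≤ ∑ u, 2 * (y u * (1 - y u)) :=
            sum_le_sum_of_subset_of_nonneg (subset_univ _) fun u _ _ => by linarith [hyy u]
        _ = 2 * ∑ u, y u * (1 - y u) := by rw [mul_sum]
        _ ≤ 2 * (f * k) := by linarith
    linarith
  -- the sum over `T × T`
  have hTT : (1 - e) * k - 4 * (f * k) ≤ ∑ u ∈ T, ∑ v ∈ T, P u v := by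
    have s1 : ∑ u, ∑ v, P u v * M u v =
        (∑ u ∈ univ \ T, ∑ v, P u v * M u v) + ∑ u ∈ T, ∑ v, P u v * M u v :=
      (sum_sdiff (subset_univ T)).symm
    have s2 : ∑ u ∈ T, ∑ v, P u v * M u v =
        (∑ u ∈ T, ∑ v ∈ univ \ T, P u v * M u v) + ∑ u ∈ T, ∑ v ∈ T, P u v * M u v := by
      rw [← sum_add_distrib]
      exact sum_congr rfl fun u _ => (sum_sdiff (subset_univ T)).symm
    have b1 : ∑ u ∈ univ \ T, ∑ v, P u v * M u v ≤ 2 * (f * k) := by
      refine le_trans (sum_le_sum fun u _ => ?_) hout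
      calc ∑ v, P u v * M u v ≤ ∑ v, P u v * y u :=
            sum_le_sum fun v _ => mul_le_mul_of_nonneg_left (hM1 u v) (hP.nn u v)
        _ = (∑ v, P u v) * y u := by rw [sum_mul]
        _ ≤ 1 * y u := mul_le_mul_of_nonneg_right (hP.row u) (hy0 u)
        _ = y u := one_mul _
    have b2 : ∑ u ∈ T, ∑ v ∈ univ \ T, P u v * M u v ≤ 2 * (f * k) := by
      rw [sum_comm]
      refine le_trans (sum_le_sum fun v _ => ?_) hout
      calc ∑ u ∈ T, P u v * M u v ≤ ∑ u ∈ T, P u v * y v :=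
            sum_le_sum fun u _ => mul_le_mul_of_nonneg_left (hM2 u v) (hP.nn u v)
        _ = (∑ u ∈ T, P u v) * y v := by rw [sum_mul]
        _ ≤ 1 * y v := mul_le_mul_of_nonneg_right (hcolS v T) (hy0 v)
        _ = y v := one_mul _
    have b3 : ∑ u ∈ T, ∑ v ∈ T, P u v * M u v ≤ ∑ u ∈ T, ∑ v ∈ T, P u v := by
      refine sum_le_sum fun u _ => sum_le_sum fun v _ => ?_
      have h1 : M u v ≤ 1 := (hM1 u v).trans (hy1 u)
      have h2 := hP.nn u v
      nlinarith
    linarith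
  rcases le_total k T.card with hc | hc
  · obtain ⟨S, hS, hSc⟩ := exists_subset_card_eq hc
    refine ⟨S, hSc, ?_⟩
    have hd : ((T \ S).card : ℝ) = (T.card : ℝ) - k := by
      rw [card_sdiff_of_subset hS, Nat.cast_sub (card_le_card hS), hSc]
    have t1 : ∑ u ∈ T, ∑ v ∈ T, P u v =
        (∑ u ∈ T \ S, ∑ v ∈ T, P u v) + ∑ u ∈ S, ∑ v ∈ T, P u v := (sum_sdiff hS).symm
    have t2 : ∑ u ∈ S, ∑ v ∈ T, P u v =
        (∑ u ∈ S, ∑ v ∈ T \ S, P u v) + ∑ u ∈ S, ∑ v ∈ S, P u v := by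
      rw [← sum_add_distrib]
      exact sum_congr rfl fun u _ => (sum_sdiff hS).symm
    have b1 : ∑ u ∈ T \ S, ∑ v ∈ T, P u v ≤ ((T \ S).card : ℝ) := by
      refine (sum_le_sum fun u _ => hrowS u T).trans ?_
      simp
    have b2 : ∑ u ∈ S, ∑ v ∈ T \ S, P u v ≤ ((T \ S).card : ℝ) := by
      rw [sum_comm]
      refine (sum_le_sum fun v _ => hcolS v S).trans ?_
      simp
    rw [hd] at b1 b2
    linarith
  · obtain ⟨S, hS, hSc⟩ := exists_superset_card_eq hc hk
    refine ⟨S, hSc, ?_⟩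
    have b1 : ∑ u ∈ T, ∑ v ∈ T, P u v ≤ ∑ u ∈ S, ∑ v ∈ S, P u v := by
      calc ∑ u ∈ T, ∑ v ∈ T, P u v ≤ ∑ u ∈ T, ∑ v ∈ S, P u v :=
            sum_le_sum fun u _ => sum_le_sum_of_subset_of_nonneg hS fun v _ _ => hP.nn u v
        _ ≤ ∑ u ∈ S, ∑ v ∈ S, P u v :=
            sum_le_sum_of_subset_of_nonneg hS fun u _ _ => sum_nonneg fun v _ => hP.nn u v
    linarith

end Pool.Agent.Helper72.SE
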