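import Mathlib
import Pool.Agent.Helper72.SE.Stm

/-!
The trace of the powers of the lazy kernel.
-/

set_option autoImplicit false

namespace Pool.Agent.Helper72.SE

open Finset Pool.Agent.H647R3.UG Pool.Agent.Helper72.SA

namespace Tr

variable {V : Type} [Fintype V] (P : V → V → ℝ)

/-- the action of the kernel -/
noncomputable def Pa (g : V → ℝ) (u : V) : ℝ := ∑ w, P u w * g w

/-- the pairing -/
noncomputable def pp (g : V → ℝ) : ℝ := ∑ u, ∑ v, P u v * (g u * g v)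

lemma pp_eq (g : V → ℝ) : pp P g = ∑ u, g u * Pa P g u := by
  unfold pp Pa
  refine sum_congr rfl fun u _ => ?_
  rw [mul_sum]
  exact sum_congr rfl fun v _ => by ring

variable {P}

lemma col (hP : Ker P) (v : V) : ∑ u, P u v ≤ 1 := by
  have := hP.row v
  rwa [sum_congr rfl fun u _ => hP.sy u v]

lemma sum_sq_Pa (hP : Ker P) (g : V → ℝ) : ∑ u, Pa P g u ^ 2 ≤ ∑ u, g u ^ 2 := by
  have h1 : ∀ u, Pa P g u ^ 2 ≤ ∑ w, P u w * g w ^ 2 := by
    intro u
    have h2 := sum_sq_le_sum_mul_sum_of_sq_eq_mul univ (r := fun w => P u w * g w)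
      (f := fun w => P u w) (g := fun w => P u w * g w ^ 2) (fun w _ => hP.nn u w)
      (fun w _ => mul_nonneg (hP.nn u w) (sq_nonneg _)) (fun w _ => by ring)
    refine h2.trans ?_
    exact mul_le_of_le_one_left (sum_nonneg fun w _ => mul_nonneg (hP.nn u w) (sq_nonneg _))
      (hP.row u)
  refine (sum_le_sum fun u _ => h1 u).trans ?_
  rw [sum_comm]
  refine sum_le_sum fun w _ => ?_
  rw [← sum_mul]
  exact mul_le_of_le_one_left (sq_nonneg _) (col hP w)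

/-- the energy -/
noncomputable def EE (P : V → V → ℝ) (g : V → ℝ) : ℝ :=
  (1 / 2) * ∑ u, ∑ v, P u v * (g u - g v) ^ 2 + ∑ u, (1 - ∑ v, P u v) * g u ^ 2

lemma EE_eq (hP : Ker P) (g : V → ℝ) : EE P g = ∑ u, g u ^ 2 - pp P g := by
  have h1 : ∑ u, ∑ v, P u v * (g u - g v) ^ 2
      = ∑ u, ∑ v, P u v * g u ^ 2 + ∑ u, ∑ v, P u v * g v ^ 2 - 2 * pp P g := by
    unfold pp
    simp only [mul_sum, ← sum_add_distrib, ← sum_sub_distrib]
    exact sum_congr rfl fun u _ => sum_congr rfl fun v _ => by ring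
  have h2 : ∑ u, ∑ v, P u v * g v ^ 2 = ∑ u, ∑ v, P u v * g u ^ 2 := by
    rw [sum_comm]
    exact sum_congr rfl fun u _ => sum_congr rfl fun v _ => by rw [hP.sy v u]
  have h3 : ∑ u, (1 - ∑ v, P u v) * g u ^ 2 = ∑ u, g u ^ 2 - ∑ u, ∑ v, P u v * g u ^ 2 := by
    rw [← sum_sub_distrib]
    refine sum_congr rfl fun u _ => ?_
    rw [sub_mul, one_mul, sum_mul]
  unfold EE
  rw [h1, h2, h3]
  ring

lemma EE_nonneg (hP : Ker P) (g : V → ℝ) : 0 ≤ EE P g := by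
  unfold EE
  have h1 : 0 ≤ ∑ u, ∑ v, P u v * (g u - g v) ^ 2 :=
    sum_nonneg fun u _ => sum_nonneg fun v _ => mul_nonneg (hP.nn u v) (sq_nonneg _)
  have h2 : 0 ≤ ∑ u, (1 - ∑ v, P u v) * g u ^ 2 :=
    sum_nonneg fun u _ => mul_nonneg (by linarith [hP.row u]) (sq_nonneg _)
  linarith

lemma EE_mono (hP : Ker P) (g : V → ℝ) (hg : ∀ u, 0 ≤ g u) (b : ℝ) (hb : 0 ≤ b) :
    EE P (fun u => max (g u - b) 0) ≤ EE P g := by
  unfold EE
  have h1 : ∑ u, ∑ v, P u v * (max (g u - b) 0 - max (g v - b) 0) ^ 2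
      ≤ ∑ u, ∑ v, P u v * (g u - g v) ^ 2 := by
    refine sum_le_sum fun u _ => sum_le_sum fun v _ => mul_le_mul_of_nonneg_left ?_ (hP.nn u v)
    have h2 := abs_max_sub_max_le_abs (g u - b) (g v - b) 0
    rw [sub_sub_sub_cancel_right] at h2
    exact sq_le_sq.mpr h2
  have h2 : ∑ u, (1 - ∑ v, P u v) * (max (g u - b) 0) ^ 2 ≤ ∑ u, (1 - ∑ v, P u v) * g u ^ 2 := by
    refine sum_le_sum fun u _ => mul_le_mul_of_nonneg_left ?_ (by linarith [hP.row u])
    refine pow_le_pow_left₀ (le_max_right _ _) (max_le (by linarith) (hg u)) 2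
  linarith

variable [DecidableEq V]

lemma lz_apply (g : V → ℝ) (u : V) :
    ∑ w, lz P u w * g w = (1 / 2) * (g u + Pa P g u) := by
  unfold lz Pa
  have : ∀ w, (1 / 2 : ℝ) * ((if u = w then 1 else 0) + P u w) * g w
      = (1 / 2) * ((if u = w then g w else 0) + P u w * g w) := by
    intro w
    split_ifs <;> ring
  simp only [this, ← mul_sum, sum_add_distrib]
  simp

/-- the action of the lazy kernel -/
noncomputable def Qa (P : V → V → ℝ) (g : V → ℝ) (u : V) : ℝ := ∑ w, lz P u w * g w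

lemma Qa_nonneg (hP : Ker P) (g : V → ℝ) (hg : ∀ u, 0 ≤ g u) (u : V) : 0 ≤ Qa P g u := by
  unfold Qa
  rw [lz_apply]
  have : 0 ≤ Pa P g u := sum_nonneg fun w _ => mul_nonneg (hP.nn u w) (hg w)
  linarith [hg u]

lemma Qa_sum (hP : Ker P) (g : V → ℝ) (hg : ∀ u, 0 ≤ g u) : ∑ u, Qa P g u ≤ ∑ u, g u := by
  unfold Qa
  simp only [lz_apply, ← mul_sum, sum_add_distrib]
  have : ∑ u, Pa P g u ≤ ∑ u, g u := by
    unfold Pa
    rw [sum_comm]
    refine sum_le_sum fun w _ => ?_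
    rw [← sum_mul]
    exact mul_le_of_le_one_left (hg w) (col hP w)
  linarith

lemma Qa_sq (hP : Ker P) (g : V → ℝ) :
    ∑ u, Qa P g u ^ 2 ≤ (1 / 2) * (∑ u, g u ^ 2 + pp P g) := by
  have h1 : ∑ u, Qa P g u ^ 2 = (1 / 4) * (∑ u, g u ^ 2 + 2 * pp P g + ∑ u, Pa P g u ^ 2) := by
    unfold Qa
    rw [pp_eq]
    simp only [lz_apply, mul_sum, ← sum_add_distrib]
    exact sum_congr rfl fun u _ => by ring
  have h2 := sum_sq_Pa hP g
  rw [h1]
  linarith

lemma pp_le (hP : Ker P) (g : V → ℝ) : pp P g ≤ ∑ u, g u ^ 2 := by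
  have := EE_nonneg hP g
  rw [EE_eq hP] at this
  linarith

lemma Qa_le (hP : Ker P) (g : V → ℝ) : ∑ u, Qa P g u ^ 2 ≤ ∑ u, g u ^ 2 := by
  have h1 := Qa_sq hP g
  have h2 := pp_le hP g
  linarith

lemma step (hC : S_CHEEGER) (hP : Ker P) (m : ℕ) (φ : ℝ) (hm : 1 ≤ m) (hφ : 0 < φ) (hφ1 : φ ≤ 1)
    (hS : SSE P m φ) (g : V → ℝ) (hg : ∀ u, 0 ≤ g u) (hg1 : ∑ u, g u ≤ 1)
    (hbig : 4 / (m : ℝ) ≤ ∑ u, g u ^ 2) :
    ∑ u, Qa P g u ^ 2 ≤ (1 - φ ^ 2 / 8) * ∑ u, g u ^ 2 := by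
  have hm' : (0 : ℝ) < m := by exact_mod_cast hm
  set s := ∑ u, g u ^ 2 with hs
  have hs0 : 0 < s := lt_of_lt_of_le (by positivity) hbig
  set b := s / 4 with hb
  have hb0 : 0 < b := by positivity
  set g1 : V → ℝ := fun u => max (g u - b) 0 with hg1d
  have hcard : (univ.filter fun u => 0 < g1 u).card ≤ m := by
    have h1 : ((univ.filter fun u => 0 < g1 u).card : ℝ) * b ≤ ∑ u, g u := by
      rw [← nsmul_eq_mul, ← sum_const]
      refine le_trans (sum_le_sum (g := g) fun u hu => ?_)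
        (sum_le_sum_of_subset_of_nonneg (filter_subset _ _) fun u _ _ => hg u)
      have hu' := (mem_filter.mp hu).2
      simp only [hg1d, lt_max_iff, lt_irrefl, or_false] at hu'
      linarith
    have h2 : ((univ.filter fun u => 0 < g1 u).card : ℝ) ≤ 1 / b := by
      rw [le_div_iff₀ hb0]
      linarith
    have h3 : 1 / b ≤ m := by
      rw [div_le_iff₀ hb0, hb]
      rw [div_le_iff₀ hm'] at hbig
      linarith
    exact_mod_cast h2.trans h3
  have hch := hC V P hP m φ hφ.le hφ1 hS g1 (fun u => le_max_right _ _) hcard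
  have hn1 : s / 2 ≤ ∑ u, g1 u ^ 2 := by
    have h1 : ∀ u, g u ^ 2 - 2 * b * g u ≤ g1 u ^ 2 := by
      intro u
      simp only [hg1d]
      rcases le_total (g u) b with h | h
      · rw [max_eq_right (by linarith)]
        nlinarith [hg u]
      · rw [max_eq_left (by linarith)]
        nlinarith [sq_nonneg b]
    have h2 := sum_le_sum fun u (_ : u ∈ univ) => h1 u
    rw [sum_sub_distrib, ← mul_sum] at h2
    have h3 : 2 * b * ∑ u, g u ≤ 2 * b := by nlinarith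
    have h4 : s / 2 = s - 2 * b := by rw [hb]; ring
    rw [h4]
    linarith
  have hmono := EE_mono hP g hg b hb0.le
  rw [EE_eq hP, EE_eq hP] at hmono
  have hpp : pp P g1 ≤ (1 - φ ^ 2 / 2) * ∑ u, g1 u ^ 2 := hch
  have h5 := Qa_sq hP g
  have h6 : φ ^ 2 / 2 * (s / 2) ≤ φ ^ 2 / 2 * ∑ u, g1 u ^ 2 :=
    mul_le_mul_of_nonneg_left hn1 (by positivity)
  have h7 : ∑ u, g1 u ^ 2 - pp P g1 ≤ s - pp P g := hmono
  have h8 : φ ^ 2 / 2 * (s / 2) ≤ s - pp P g := by linarith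
  rw [← hs] at h5
  linarith

/-- the columns of the powers -/
lemma col_pow (t : ℕ) (v : V) : (fun u => (lz P ^ (t + 1)) u v)
    = Qa P (fun u => (lz P ^ t) u v) := by
  funext u
  rw [pow_succ', Matrix.mul_apply]
  rfl

lemma pow_facts (hC : S_CHEEGER) (hP : Ker P) (m : ℕ) (φ : ℝ) (hm : 1 ≤ m) (hφ : 0 < φ)
    (hφ1 : φ ≤ 1) (hS : SSE P m φ) (v : V) (t : ℕ) :
    (∀ u, 0 ≤ (lz P ^ t) u v) ∧ ∑ u, (lz P ^ t) u v ≤ 1 ∧
      ∑ u, (lz P ^ t) u v ^ 2 ≤ max (4 / (m : ℝ)) ((1 - φ ^ 2 / 8) ^ t) := by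
  have hφ2 : φ ^ 2 ≤ 1 := pow_le_one₀ hφ.le hφ1
  have hq0 : 0 ≤ 1 - φ ^ 2 / 8 := by linarith
  have hq1 : 1 - φ ^ 2 / 8 ≤ 1 := by nlinarith [sq_nonneg φ]
  induction t with
  | zero =>
    simp only [pow_zero, Matrix.one_apply]
    refine ⟨fun u => by split_ifs <;> norm_num, by simp, ?_⟩
    refine le_trans ?_ (le_max_right _ _)
    simp
  | succ t ih =>
    obtain ⟨a1, a2, a3⟩ := ih
    have hc := col_pow (P := P) t v
    have hc' : ∀ u, (lz P ^ (t + 1)) u v = Qa P (fun u => (lz P ^ t) u v) u := fun u =>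
      congrFun hc u
    refine ⟨fun u => by rw [hc']; exact Qa_nonneg hP _ a1 u, ?_, ?_⟩
    · simp only [hc']
      exact (Qa_sum hP _ a1).trans a2
    · simp only [hc']
      rcases le_or_gt (4 / (m : ℝ)) (∑ u, (lz P ^ t) u v ^ 2) with h | h
      · have h1 := step hC hP m φ hm hφ hφ1 hS _ a1 a2 h
        refine h1.trans ((mul_le_mul_of_nonneg_left a3 hq0).trans ?_)
        rw [mul_max_of_nonneg _ _ hq0]
        refine max_le_max ?_ (le_of_eq (by rw [pow_succ]; ring))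
        exact mul_le_of_le_one_left (by positivity) hq1
      · exact ((Qa_le hP _).trans h.le).trans (le_max_left _ _)

end Tr

open Tr in
theorem t_TRACE (hC : S_CHEEGER) : S_TRACE := by
  intro V _ _ P hP m φ hm hmn hφ hφ1 hS t ht
  have hm' : (0 : ℝ) < m := by exact_mod_cast hm
  have hn : (0 : ℝ) < Fintype.card V := lt_of_lt_of_le hm' (by exact_mod_cast hmn)
  have hφ2 : φ ^ 2 ≤ 1 := pow_le_one₀ hφ.le hφ1
  have hpow : (1 - φ ^ 2 / 8) ^ t ≤ 4 / (m : ℝ) := by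
    have h1 : (1 - φ ^ 2 / 8) ≤ Real.exp (-(φ ^ 2 / 8)) := Real.one_sub_le_exp_neg _
    have h2 : (1 - φ ^ 2 / 8) ^ t ≤ Real.exp (-(φ ^ 2 / 8)) ^ t :=
      pow_le_pow_left₀ (by linarith) h1 t
    rw [← Real.exp_nat_mul] at h2
    have h3 : (t : ℝ) * -(φ ^ 2 / 8) ≤ - Real.log (Fintype.card V) := by
      have h4 : φ ^ 2 / 8 * (8 / φ ^ 2 * Real.log (Fintype.card V))
          ≤ φ ^ 2 / 8 * t := mul_le_mul_of_nonneg_left ht (by positivity)
      have h5 : φ ^ 2 / 8 * (8 / φ ^ 2 * Real.log (Fintype.card V))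
          = Real.log (Fintype.card V) := by field_simp
      rw [h5] at h4
      linarith
    refine h2.trans ((Real.exp_le_exp.mpr h3).trans ?_)
    rw [Real.exp_neg, Real.exp_log hn]
    have h6 : (m : ℝ) ≤ Fintype.card V := by exact_mod_cast hmn
    rw [inv_eq_one_div, div_le_div_iff₀ hn hm']
    linarith
  rw [sum_comm]
  have h7 : ∀ v : V, ∑ u, (lz P ^ t) u v ^ 2 ≤ 4 / (m : ℝ) := by
    intro v
    obtain ⟨_, _, a3⟩ := pow_facts hC hP m φ hm hφ hφ1 hS v t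
    rwa [max_eq_left hpow] at a3
  refine (sum_le_sum fun v _ => h7 v).trans ?_
  rw [sum_const, card_univ, nsmul_eq_mul]
  exact le_of_eq (by ring)

end Pool.Agent.Helper72.SE
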