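import Pool.Agent.Helper72.SA.StmD

/-!
# Local Cheeger inequality for two functions (helper71)
-/

set_option autoImplicit false

namespace Pool.Agent.Helper72.SA
open Finset
theorem Ch2.ind {W : Type} [Fintype W] [DecidableEq W] (P Q : Finset W)
    (w : W → W → ℝ) : ∑ u, ∑ v, w u v * ((if u ∈ P then 1 else 0) * (if v ∈ Q then 1 else 0)) =
      ∑ u ∈ P, ∑ v ∈ Q, w u v := by
  have e : ∀ u, ∑ v, w u v * ((if u ∈ P then (1 : ℝ) else 0) * (if v ∈ Q then 1 else 0)) =
      if u ∈ P then ∑ v ∈ Q, w u v else 0 := by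
    intro u
    by_cases hu : u ∈ P
    · simp [hu]
    · simp [hu]
  rw [sum_congr rfl fun u _ => e u, sum_ite_mem, univ_inter]

/-- layers: general kernel `K`, weights `M`, sets inside `T` -/
theorem Ch2.lay {V : Type} [Fintype V] [DecidableEq V] (K : V → V → ℝ) (M : V → ℝ) (φ : ℝ)
    (T : Finset V) (hS : ∀ S : Finset V, S ⊆ T →
      ∑ u ∈ S, ∑ v ∈ S, K u v ≤ (1 - φ) * ∑ u ∈ S, M u) (n : ℕ) :
    ∀ h : V → ℝ, (∀ u, 0 ≤ h u) → (univ.filter fun u => 0 < h u) ⊆ T →
    (univ.filter fun u => 0 < h u).card ≤ n →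
    ∑ u, ∑ v, K u v * min (h u) (h v) ≤ (1 - φ) * ∑ u, M u * h u := by
  induction n with
  | zero =>
    intro h hh _ hn
    have h0 : ∀ u, h u = 0 := by
      intro u
      by_contra hne
      have hpos : 0 < h u := lt_of_le_of_ne (hh u) (Ne.symm hne)
      have : (univ.filter fun u => 0 < h u) = ∅ := Finset.card_eq_zero.1 (Nat.le_zero.1 hn)
      have hu : u ∈ (univ.filter fun u => 0 < h u) := by simp [hpos]
      rw [this] at hu
      simp at hu
    simp [h0]
  | succ n ih =>
    intro h hh hT hn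
    set s := univ.filter fun u => 0 < h u with hs
    have hmem : ∀ u, u ∈ s ↔ 0 < h u := by
      intro u
      simp [hs]
    by_cases hse : s.Nonempty
    · obtain ⟨u0, hu0, hmin⟩ := s.exists_min_image h hse
      set c := h u0 with hc
      have hcpos : 0 < c := (hmem u0).1 hu0
      set h1 : V → ℝ := fun u => if u ∈ s then h u - c else 0 with hh1
      have e0 : ∀ u, h1 u = if u ∈ s then h u - c else 0 := fun u => rfl
      have hnn : ∀ u, 0 ≤ h1 u := by
        intro u
        rw [e0]
        split_ifs with hu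
        · linarith [hmin u hu]
        · exact le_refl 0
      have hz : ∀ u, u ∉ s → h u = 0 := by
        intro u hu
        rw [hmem] at hu
        linarith [hh u, not_lt.1 hu]
      have hsub : (univ.filter fun u => 0 < h1 u) ⊆ s.erase u0 := by
        intro u hu
        rw [mem_filter] at hu
        have h2 := hu.2
        rw [e0] at h2
        rw [mem_erase]
        by_cases hus : u ∈ s
        · refine ⟨?_, hus⟩
          intro he
          rw [if_pos hus, he] at h2
          linarith
        · rw [if_neg hus] at h2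
          exact absurd h2 (lt_irrefl 0)
      have hcard : (univ.filter fun u => 0 < h1 u).card ≤ n := by
        have h3 := card_le_card hsub
        rw [card_erase_of_mem hu0] at h3
        omega
      have hI := ih h1 hnn (hsub.trans ((erase_subset _ _).trans hT)) hcard
      have e1 : ∀ u v, K u v * min (h u) (h v) = K u v * min (h1 u) (h1 v) +
          c * (if u ∈ s then (if v ∈ s then K u v else 0) else 0) := by
        intro u v
        rw [e0, e0]
        by_cases hu : u ∈ s
        · by_cases hv : v ∈ s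
          · simp only [hu, hv, if_true]
            rw [min_sub_sub_right]
            ring
          · simp only [hu, hv, if_true, if_false]
            rw [hz v hv, min_eq_right (hh u), min_eq_right (by linarith [hmin u hu])]
            ring
        · simp only [hu, if_false]
          by_cases hv : v ∈ s
          · simp only [hv, if_true]
            rw [hz u hu, min_eq_left (hh v), min_eq_left (by linarith [hmin v hv])]
            ring
          · simp only [hv, if_false]
            rw [hz u hu, hz v hv]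
            simp
      have e2 : ∀ u, M u * h u = M u * h1 u + c * (if u ∈ s then M u else 0) := by
        intro u
        rw [e0]
        split_ifs with hu
        · ring
        · rw [hz u hu]
          ring
      have e3 : ∑ u, ∑ v, K u v * min (h u) (h v) = ∑ u, ∑ v, K u v * min (h1 u) (h1 v) +
          c * ∑ u ∈ s, ∑ v ∈ s, K u v := by
        have e5 : ∀ u, (∑ v, if u ∈ s then (if v ∈ s then K u v else 0) else 0) =
            if u ∈ s then ∑ v ∈ s, K u v else 0 := by
          intro u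
          by_cases hu : u ∈ s
          · simp only [hu, if_true]
            rw [sum_ite_mem, univ_inter]
          · simp only [hu, if_false, sum_const_zero]
        simp only [e1, sum_add_distrib, ← mul_sum, e5]
        rw [sum_ite_mem, univ_inter]
      have e4 : ∑ u, M u * h u = ∑ u, M u * h1 u + c * ∑ u ∈ s, M u := by
        rw [sum_congr rfl fun u _ => e2 u, sum_add_distrib, ← mul_sum, sum_ite_mem, univ_inter]
      rw [e3, e4]
      have h5 := hS s hT
      have h6 := mul_le_mul_of_nonneg_left h5 hcpos.le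
      linarith
    · rw [not_nonempty_iff_eq_empty] at hse
      refine ih h hh ?_ ?_
      · rw [← hs, hse]; simp
      · rw [← hs, hse]; simp

/-- local Cheeger inequality, general kernel -/
theorem Ch2.gen {V : Type} [Fintype V] [DecidableEq V] (K : V → V → ℝ) (M : V → ℝ) (φ : ℝ)
    (h0 : 0 ≤ φ) (hK : ∀ u v, 0 ≤ K u v) (hsy : ∀ u v, K u v = K v u)
    (hM : ∀ u, ∑ v, K u v ≤ M u) (g : V → ℝ) (hg : ∀ u, 0 ≤ g u)
    (hS : ∀ S : Finset V, S ⊆ (univ.filter fun u => 0 < g u) →
      ∑ u ∈ S, ∑ v ∈ S, K u v ≤ (1 - φ) * ∑ u ∈ S, M u) :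
    ∑ u, ∑ v, K u v * (g u * g v) ≤ (1 - φ ^ 2 / 2) * ∑ u, M u * g u ^ 2 := by
  have hsup : (univ.filter fun u => 0 < g u ^ 2) = univ.filter fun u => 0 < g u := by
    ext u
    simp only [mem_filter, mem_univ, true_and]
    constructor
    · intro h
      rcases (hg u).lt_or_eq with h2 | h2
      · exact h2
      · rw [← h2] at h
        simp at h
    · intro h
      positivity
  have key := Ch2.lay K M φ _ hS _ (fun u => g u ^ 2) (fun u => sq_nonneg _)
    (by rw [hsup]) le_rfl
  set A := ∑ u, M u * g u ^ 2 with hA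
  set x := ∑ u, ∑ v, K u v * min (g u ^ 2) (g v ^ 2) with hx
  set F := ∑ u, ∑ v, K u v * (g u * g v) with hF
  have r1 : ∑ u, ∑ v, K u v * g u ^ 2 ≤ A := by
    refine sum_le_sum fun u _ => ?_
    rw [← sum_mul]
    exact mul_le_mul_of_nonneg_right (hM u) (sq_nonneg _)
  have r2 : ∑ u, ∑ v, K u v * g v ^ 2 ≤ A := by
    rw [sum_comm]
    refine sum_le_sum fun u _ => ?_
    rw [← sum_mul]
    have : ∑ i, K i u = ∑ i, K u i := sum_congr rfl fun i _ => hsy i u
    rw [this]
    exact mul_le_mul_of_nonneg_right (hM u) (sq_nonneg _)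
  have r3 : ∑ u, ∑ v, K u v * max (g u ^ 2) (g v ^ 2) ≤ 2 * A - x := by
    have e : ∀ u v, K u v * max (g u ^ 2) (g v ^ 2) = K u v * g u ^ 2 + K u v * g v ^ 2 -
        K u v * min (g u ^ 2) (g v ^ 2) := by
      intro u v
      have := min_add_max (g u ^ 2) (g v ^ 2)
      rw [← mul_add, ← mul_sub, ← this]
      ring
    simp only [e, sum_sub_distrib, sum_add_distrib]
    rw [← hx]
    linarith
  have r4 : 2 * (1 + φ) * F ≤ (1 + φ) ^ 2 * x +
      ∑ u, ∑ v, K u v * max (g u ^ 2) (g v ^ 2) := by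
    rw [hF, hx, mul_sum, mul_sum, ← sum_add_distrib]
    refine sum_le_sum fun u _ => ?_
    rw [mul_sum, mul_sum, ← sum_add_distrib]
    refine sum_le_sum fun v _ => ?_
    have hp := hK u v
    have h3 : 2 * (1 + φ) * (g u * g v) ≤ (1 + φ) ^ 2 * min (g u ^ 2) (g v ^ 2) +
        max (g u ^ 2) (g v ^ 2) := by
      rcases le_total (g u) (g v) with hle | hle
      · have h4 : g u ^ 2 ≤ g v ^ 2 := pow_le_pow_left₀ (hg u) hle 2
        rw [min_eq_left h4, max_eq_right h4]
        nlinarith [sq_nonneg ((1 + φ) * g u - g v)]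
      · have h4 : g v ^ 2 ≤ g u ^ 2 := pow_le_pow_left₀ (hg v) hle 2
        rw [min_eq_right h4, max_eq_left h4]
        nlinarith [sq_nonneg ((1 + φ) * g v - g u)]
    have h5 := mul_le_mul_of_nonneg_left h3 hp
    nlinarith
  have r5 : 2 * (1 + φ) * F ≤ (2 * φ + φ ^ 2) * x + 2 * A := by nlinarith
  have r6 : (2 * φ + φ ^ 2) * x ≤ (2 * φ + φ ^ 2) * ((1 - φ) * A) :=
    mul_le_mul_of_nonneg_left key (by nlinarith)
  have r7 : (1 + φ) * (2 * F) ≤ (1 + φ) * ((2 - φ ^ 2) * A) := by nlinarith
  have r8 := le_of_mul_le_mul_left r7 (by linarith)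
  linarith

/-- two sets -/
theorem Ch2.two {W : Type} [Fintype W] [DecidableEq W] (w : W → W → ℝ)
    (hw : ∀ u v, 0 ≤ w u v) (hs : ∀ u v, w u v = w v u) (B φ : ℝ) (hB : SE1 w B φ)
    (A C : Finset W) (h : ∑ u ∈ A ∪ C, ∑ z, w u z ≤ B) :
    2 * ∑ u ∈ A, ∑ v ∈ C, w u v ≤
      (1 - φ) * (∑ u ∈ A, ∑ z, w u z + ∑ u ∈ C, ∑ z, w u z) := by
  have h1 := hB _ h
  have h2 := hB (A ∩ C) (le_trans (sum_le_sum_of_subset_of_nonneg
    (inter_subset_left.trans subset_union_left) fun u _ _ => sum_nonneg fun z _ => hw u z) h)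
  have h3 : ∑ u ∈ A, ∑ z, w u z + ∑ u ∈ C, ∑ z, w u z =
      ∑ u ∈ A ∪ C, ∑ z, w u z + ∑ u ∈ A ∩ C, ∑ z, w u z := (sum_union_inter).symm
  have ind : ∀ P Q : Finset W, ∑ u ∈ P, ∑ v ∈ Q, w u v =
      ∑ u, ∑ v, w u v * ((if u ∈ P then 1 else 0) * (if v ∈ Q then 1 else 0)) := by
    intro P Q
    rw [← Ch2.ind P Q w]
  have h4 : 2 * ∑ u ∈ A, ∑ v ∈ C, w u v ≤ ∑ u ∈ A ∪ C, ∑ v ∈ A ∪ C, w u v +
      ∑ u ∈ A ∩ C, ∑ v ∈ A ∩ C, w u v := by
    have hsw : ∑ u ∈ A, ∑ v ∈ C, w u v = ∑ u ∈ C, ∑ v ∈ A, w u v := by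
      rw [sum_comm]
      exact sum_congr rfl fun u _ => sum_congr rfl fun v _ => hs v u
    rw [two_mul]
    nth_rewrite 2 [hsw]
    rw [ind, ind, ind, ind, ← sum_add_distrib, ← sum_add_distrib]
    refine sum_le_sum fun u _ => ?_
    rw [← sum_add_distrib, ← sum_add_distrib]
    refine sum_le_sum fun v _ => ?_
    rw [← mul_add, ← mul_add]
    refine mul_le_mul_of_nonneg_left ?_ (hw u v)
    by_cases a1 : u ∈ A <;> by_cases a2 : u ∈ C <;> by_cases a3 : v ∈ A <;>
      by_cases a4 : v ∈ C <;> simp [a1, a2, a3, a4]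
  rw [h3]
  linarith

/-- the double cover -/
def Ch2.K {W : Type} (w : W → W → ℝ) : W ⊕ W → W ⊕ W → ℝ
  | Sum.inl u, Sum.inr v => w u v
  | Sum.inr u, Sum.inl v => w u v
  | _, _ => 0

theorem t_CH2 : S_CH2 := by
  intro W _ _ w hw hs B φ h0 _ hB f g hf hg hsupp
  set m : W → ℝ := fun u => ∑ z, w u z with hm
  have key := Ch2.gen (V := W ⊕ W) (Ch2.K w) (Sum.elim m m) φ h0 ?_ ?_ ?_ (Sum.elim f g) ?_ ?_
  · rw [Fintype.sum_sum_type, Fintype.sum_sum_type] at key
    simp only [Fintype.sum_sum_type, Sum.elim_inl, Sum.elim_inr, Ch2.K, zero_mul,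
      sum_const_zero, zero_add, add_zero] at key
    have e1 : ∑ u, ∑ v, w u v * (f u * g v) = ∑ u, ∑ v, w u v * (g u * f v) := by
      rw [sum_comm]
      refine sum_congr rfl fun u _ => sum_congr rfl fun v _ => ?_
      rw [hs v u]
      ring
    rw [e1] at key
    have e2 : ∑ u, m u * (f u ^ 2 + g u ^ 2) = ∑ u, m u * f u ^ 2 + ∑ u, m u * g u ^ 2 := by
      rw [← sum_add_distrib]
      exact sum_congr rfl fun u _ => by ring
    rw [e2]
    linarith
  · rintro (u | u) (v | v) <;> simp only [Ch2.K]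
    · exact le_rfl
    · exact hw u v
    · exact hw u v
    · exact le_rfl
  · rintro (u | u) (v | v) <;> simp only [Ch2.K]
    · exact hs u v
    · exact hs u v
  · rintro (u | u)
    · rw [Fintype.sum_sum_type]; simp [Ch2.K, hm]
    · rw [Fintype.sum_sum_type]; simp [Ch2.K, hm]
  · rintro (u | u)
    · exact hf u
    · exact hg u
  · intro S hS
    rw [← Finset.toLeft_disjSum_toRight (u := S)]
    simp only [Finset.sum_disjSum, Ch2.K, Sum.elim_inl, Sum.elim_inr, sum_const_zero, zero_add,
      add_zero]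
    have hA : S.toLeft ∪ S.toRight ⊆ univ.filter (fun u => 0 < f u ∨ 0 < g u) := by
      intro u hu
      rw [mem_filter]
      refine ⟨mem_univ _, ?_⟩
      rw [mem_union, Finset.mem_toLeft, Finset.mem_toRight] at hu
      rcases hu with hu | hu
      · left
        have := hS hu
        rw [mem_filter] at this
        exact this.2
      · right
        have := hS hu
        rw [mem_filter] at this
        exact this.2
    have h2 := Ch2.two w hw hs B φ hB S.toLeft S.toRight (le_trans
      (sum_le_sum_of_subset_of_nonneg hA fun u _ _ => sum_nonneg fun z _ => hw u z) hsupp)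
    have hsw : ∑ u ∈ S.toRight, ∑ v ∈ S.toLeft, w u v = ∑ u ∈ S.toLeft, ∑ v ∈ S.toRight, w u v := by
      rw [sum_comm]
      exact sum_congr rfl fun u _ => sum_congr rfl fun v _ => hs v u
    rw [hsw, ← two_mul]
    exact h2

end Pool.Agent.Helper72.SA
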