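import Pool.Agent.Helper72.SA.StmD

/-!
Decay of the densities in one step, from the local Cheeger inequality for two functions.
-/

set_option autoImplicit false

namespace Pool.Agent.Helper72.SA

open Finset

theorem t_DEC (h : S_CH2) : S_DEC := by
  intro W _ _ w hw hs B φ hB hφ hφ1 hSE t v h8
  have ha := Hd_next w hw t
  have hf0 : ∀ u, 0 ≤ Hd w t u v := fun u => Hd_nonneg hw t u v
  have hg0 : ∀ u, 0 ≤ Hd w (t + 1) u v := fun u => Hd_nonneg hw (t + 1) u v
  have hfs := Hd_sub' w hw hs t v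
  have hgs := Hd_sub' w hw hs (t + 1) v
  have ha' : ∀ u, ∑ z, w u z * Hd w t z v = (∑ z, w u z) * Hd w (t + 1) u v := fun u => ha u v
  generalize hf : (fun u => Hd w t u v) = f at *
  generalize hg : (fun u => Hd w (t + 1) u v) = g at *
  have ef : ∀ u, Hd w t u v = f u := fun u => congrFun hf u
  have eg : ∀ u, Hd w (t + 1) u v = g u := fun u => congrFun hg u
  simp only [ef, eg] at *
  set m : W → ℝ := fun u => ∑ z, w u z with hm
  have hm0 : ∀ u, 0 ≤ m u := fun u => sum_nonneg fun z _ => hw u z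
  change ∑ u, m u * g u ^ 2 ≤ (1 - φ ^ 2 / 4) * ∑ u, m u * f u ^ 2
  change 8 ≤ B * ∑ u, m u * f u ^ 2 at h8
  change ∑ u, m u * f u ≤ 1 at hfs
  change ∑ u, m u * g u ≤ 1 at hgs
  set X := ∑ u, m u * f u ^ 2 with hX
  set Y := ∑ u, m u * g u ^ 2 with hY
  have hX0 : 0 < X := by
    by_contra hcon
    push Not at hcon
    nlinarith
  set b := X / 4 with hb
  have hb0 : 0 < b := by positivity
  -- the sum of squares identity
  have key : ∀ F G : W → ℝ, ∑ u, ∑ z, w u z * (G u - F z) ^ 2 =
      ∑ u, m u * G u ^ 2 + ∑ u, m u * F u ^ 2 - 2 * ∑ u, ∑ z, w u z * (G u * F z) := by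
    intro F G
    have e1 : ∑ u, m u * G u ^ 2 = ∑ u, ∑ z, w u z * G u ^ 2 := by
      refine sum_congr rfl fun u _ => ?_
      rw [hm, sum_mul]
    have e2 : ∑ u, m u * F u ^ 2 = ∑ u, ∑ z, w u z * F z ^ 2 := by
      rw [sum_comm]
      refine sum_congr rfl fun u _ => ?_
      rw [hm, sum_mul]
      exact sum_congr rfl fun z _ => by rw [hs]
    rw [e1, e2, mul_sum, ← sum_add_distrib, ← sum_sub_distrib]
    refine sum_congr rfl fun u _ => ?_
    rw [mul_sum, ← sum_add_distrib, ← sum_sub_distrib]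
    exact sum_congr rfl fun z _ => by ring
  have hXY : ∑ u, ∑ z, w u z * (g u - f z) ^ 2 = X - Y := by
    rw [key f g]
    have e3 : ∑ u, ∑ z, w u z * (g u * f z) = Y := by
      rw [hY]
      refine sum_congr rfl fun u _ => ?_
      have : ∑ z, w u z * (g u * f z) = g u * ∑ z, w u z * f z := by
        rw [mul_sum]; exact sum_congr rfl fun z _ => by ring
      rw [this, ha' u]; ring
    rw [e3]; ring
  set f1 : W → ℝ := fun u => max (f u - b) 0 with hf1
  set g1 : W → ℝ := fun u => max (g u - b) 0 with hg1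
  have hle : ∑ u, ∑ z, w u z * (g1 u - f1 z) ^ 2 ≤ X - Y := by
    rw [← hXY]
    refine sum_le_sum fun u _ => sum_le_sum fun z _ => mul_le_mul_of_nonneg_left ?_ (hw u z)
    rw [← sq_abs (g1 u - f1 z), ← sq_abs (g u - f z)]
    refine pow_le_pow_left₀ (abs_nonneg _) ?_ 2
    have := abs_max_sub_max_le_abs (g u - b) (f z - b) 0
    calc |g1 u - f1 z| ≤ |g u - b - (f z - b)| := this
      _ = |g u - f z| := by congr 1; ring
  have hsupp : ∑ u ∈ univ.filter (fun u => 0 < f1 u ∨ 0 < g1 u), m u ≤ B := by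
    have h1 : ∀ u ∈ univ.filter (fun u => 0 < f1 u ∨ 0 < g1 u),
        m u ≤ (m u * f u + m u * g u) / b := by
      intro u hu
      rw [le_div_iff₀ hb0, ← mul_add]
      refine mul_le_mul_of_nonneg_left ?_ (hm0 u)
      rcases (mem_filter.mp hu).2 with h | h
      · have h2 : b < f u := by
          by_contra hc
          push Not at hc
          have : f1 u = 0 := max_eq_right (by linarith)
          linarith
        linarith [hg0 u]
      · have h2 : b < g u := by
          by_contra hc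
          push Not at hc
          have : g1 u = 0 := max_eq_right (by linarith)
          linarith
        linarith [hf0 u]
    calc ∑ u ∈ univ.filter (fun u => 0 < f1 u ∨ 0 < g1 u), m u
        ≤ ∑ u ∈ univ.filter (fun u => 0 < f1 u ∨ 0 < g1 u), (m u * f u + m u * g u) / b :=
          sum_le_sum h1
      _ ≤ ∑ u, (m u * f u + m u * g u) / b := by
          refine sum_le_sum_of_subset_of_nonneg (filter_subset _ _) fun u _ _ => ?_
          have := mul_nonneg (hm0 u) (hf0 u)
          have := mul_nonneg (hm0 u) (hg0 u)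
          positivity
      _ = (∑ u, m u * f u + ∑ u, m u * g u) / b := by rw [← sum_div, sum_add_distrib]
      _ ≤ 2 / b := by
          refine div_le_div_of_nonneg_right (by linarith) hb0.le
      _ ≤ B := by
          rw [div_le_iff₀ hb0, hb]
          linarith
  have hCH := h W w hw hs B φ hφ.le hφ1 hSE f1 g1 (fun u => le_max_right _ _)
    (fun u => le_max_right _ _) hsupp
  change 2 * ∑ u, ∑ v, w u v * (g1 u * f1 v) ≤
    (1 - φ ^ 2 / 2) * ∑ u, m u * (f1 u ^ 2 + g1 u ^ 2) at hCH
  have hk := key f1 g1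
  have hsp : ∑ u, m u * (f1 u ^ 2 + g1 u ^ 2) = ∑ u, m u * f1 u ^ 2 + ∑ u, m u * g1 u ^ 2 := by
    rw [← sum_add_distrib]; exact sum_congr rfl fun u _ => by ring
  have hg1s : 0 ≤ ∑ u, m u * g1 u ^ 2 := sum_nonneg fun u _ => mul_nonneg (hm0 u) (sq_nonneg _)
  have hf1s : X / 2 ≤ ∑ u, m u * f1 u ^ 2 := by
    have h1 : ∀ u, m u * f u ^ 2 - 2 * b * (m u * f u) ≤ m u * f1 u ^ 2 := by
      intro u
      have : f u ^ 2 - 2 * b * f u ≤ f1 u ^ 2 := by
        rcases le_total b (f u) with hc | hc
        · have : f1 u = f u - b := max_eq_left (by linarith)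
          rw [this]; nlinarith [sq_nonneg b]
        · have : f1 u = 0 := max_eq_right (by linarith)
          rw [this]; nlinarith [hf0 u]
      calc m u * f u ^ 2 - 2 * b * (m u * f u) = m u * (f u ^ 2 - 2 * b * f u) := by ring
        _ ≤ _ := mul_le_mul_of_nonneg_left this (hm0 u)
    have h2 := sum_le_sum fun u (_ : u ∈ (univ : Finset W)) => h1 u
    rw [sum_sub_distrib, ← mul_sum] at h2
    change X - 2 * b * ∑ u, m u * f u ≤ _ at h2
    have h3 : 2 * b * ∑ u, m u * f u ≤ 2 * b := by nlinarith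
    have h4 : X - 2 * b = X / 2 := by rw [hb]; ring
    linarith
  rw [hsp] at hCH
  rw [hk] at hle
  have hφ2 : 0 < φ ^ 2 := by positivity
  nlinarith [mul_nonneg hφ2.le hg1s, mul_le_mul_of_nonneg_left hf1s hφ2.le]

end Pool.Agent.Helper72.SA
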