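import Pool.Agent.Helper72.SA.StmD

/-!
Return probabilities and small-set expansion at one scale: the trace.
-/

set_option autoImplicit false

namespace Pool.Agent.Helper72.SA

open Finset

/-- the densities at one vertex -/
theorem F_one (h : S_DEC) {W : Type} [Fintype W] [DecidableEq W] (w : W → W → ℝ)
    (hw : ∀ u v, 0 ≤ w u v) (hs : ∀ u v, w u v = w v u) (B φ : ℝ) (hB : 0 < B) (hφ : 0 < φ)
    (hφ1 : φ ≤ 1) (hSE : SE1 w B φ) (v : W) (hv : 0 < ∑ z, w v z) (t : ℕ) :
    ∑ u, (∑ z, w u z) * Hd w t u v ^ 2 ≤ 8 / B + (1 - φ ^ 2 / 4) ^ t / ∑ z, w v z := by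
  have hq0 : 0 ≤ 1 - φ ^ 2 / 4 := by nlinarith
  have hq1 : 1 - φ ^ 2 / 4 ≤ 1 := by nlinarith [sq_nonneg φ]
  have h8 : 0 < 8 / B := by positivity
  induction t with
  | zero =>
    have e : ∑ u, (∑ z, w u z) * Hd w 0 u v ^ 2 = 1 / ∑ z, w v z := by
      rw [sum_eq_single v]
      · have h1 : Hd w 0 v v = 1 / ∑ z, w v z := by unfold Hd wk; rw [if_pos rfl]
        rw [h1]
        field_simp
      · intro u _ hu
        have h1 : Hd w 0 u v = 0 := by unfold Hd wk; rw [if_neg hu, zero_div]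
        rw [h1]
        ring
      · intro h; exact absurd (mem_univ v) h
    rw [e, pow_zero]
    linarith
  | succ t ih =>
    have hp : 0 ≤ (1 - φ ^ 2 / 4) ^ (t + 1) / ∑ z, w v z := by positivity
    by_cases hc : 8 ≤ B * ∑ u, (∑ z, w u z) * Hd w t u v ^ 2
    · have h1 := h W w hw hs B φ hB hφ hφ1 hSE t v hc
      have h2 := mul_le_mul_of_nonneg_left ih hq0
      have h3 : (1 - φ ^ 2 / 4) * (8 / B + (1 - φ ^ 2 / 4) ^ t / ∑ z, w v z) =
          (1 - φ ^ 2 / 4) * (8 / B) + (1 - φ ^ 2 / 4) ^ (t + 1) / ∑ z, w v z := by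
        rw [pow_succ]; ring
      rw [h3] at h2
      have h4 : (1 - φ ^ 2 / 4) * (8 / B) ≤ 1 * (8 / B) :=
        mul_le_mul_of_nonneg_right hq1 h8.le
      linarith
    · push Not at hc
      have h1 := Hd_sq_anti hw hs t v
      have h2 : ∑ u, (∑ z, w u z) * Hd w t u v ^ 2 ≤ 8 / B := by
        rw [le_div_iff₀ hB, mul_comm]
        exact hc.le
      linarith

theorem t_TR1 (h : S_DEC) : S_TR1 := by
  intro W _ _ w hw hs B φ hB hφ hφ1 hSE T hT hlog
  have hm0 : ∀ u, 0 ≤ ∑ z, w u z := fun u => sum_nonneg fun z _ => hw u z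
  have hq0 : 0 ≤ 1 - φ ^ 2 / 4 := by nlinarith
  have hone : ∀ v, wk w (2 * T) v v ≤ 8 * (∑ z, w v z) / B + (1 - φ ^ 2 / 4) ^ T := by
    intro v
    have hR0 : 0 ≤ 8 * (∑ z, w v z) / B + (1 - φ ^ 2 / 4) ^ T := by
      have := hm0 v
      positivity
    rcases (hm0 v).eq_or_lt with hv | hv
    · obtain ⟨j, hj⟩ : ∃ j, 2 * T = j + 1 := ⟨2 * T - 1, by omega⟩
      have : wk w (2 * T) v v = 0 := by
        rw [hj]
        show (∑ z, w v z * wk w j z v) / ∑ z, w v z = 0
        rw [← hv, div_zero]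
      rw [this]
      exact hR0
    · have hF := F_one h w hw hs B φ hB hφ hφ1 hSE v hv T
      have e1 : wk w (2 * T) v v = (∑ z, w v z) * ∑ u, (∑ z, w u z) * Hd w T u v ^ 2 := by
        rw [two_mul, wk_add, mul_sum]
        refine sum_congr rfl fun u _ => ?_
        have e2 : (∑ z, w v z) * ((∑ z, w u z) * Hd w T u v ^ 2) =
            ((∑ z, w u z) * ((∑ z, w v z) * Hd w T u v)) * Hd w T u v := by ring
        rw [e2, mHd hw hs, wk_symm hw hs]
        unfold Hd
        have := hv.ne'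
        field_simp
      rw [e1]
      refine (mul_le_mul_of_nonneg_left hF hv.le).trans (le_of_eq ?_)
      have := hv.ne'
      field_simp
  refine (sum_le_sum fun v _ => hone v).trans ?_
  rw [sum_add_distrib, ← sum_div, ← mul_sum, sum_const, card_univ, nsmul_eq_mul]
  have hlast : (Fintype.card W : ℝ) * (1 - φ ^ 2 / 4) ^ T ≤ 1 := by
    rcases Nat.eq_zero_or_pos (Fintype.card W) with h0 | h0
    · rw [h0, Nat.cast_zero, zero_mul]
      exact zero_le_one
    · have hn : (0 : ℝ) < Fintype.card W := by exact_mod_cast h0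
      have h1 : (1 - φ ^ 2 / 4) ^ T ≤ Real.exp (-(φ ^ 2 / 4)) ^ T := by
        apply pow_le_pow_left₀ hq0
        have := Real.add_one_le_exp (-(φ ^ 2 / 4))
        linarith
      have h2 : Real.exp (-(φ ^ 2 / 4)) ^ T ≤ Real.exp (-Real.log (Fintype.card W)) := by
        rw [← Real.exp_nat_mul]
        apply Real.exp_le_exp.2
        have h3 : Real.log (Fintype.card W) ≤ T * (φ ^ 2 / 4) := by
          have h4 : 4 / φ ^ 2 * Real.log (Fintype.card W) * (φ ^ 2 / 4) ≤ T * (φ ^ 2 / 4) :=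
            mul_le_mul_of_nonneg_right hlog (by positivity)
          have h5 : 4 / φ ^ 2 * Real.log (Fintype.card W) * (φ ^ 2 / 4) =
              Real.log (Fintype.card W) := by
            have := hφ.ne'
            field_simp
          linarith
        linarith
      have h3 : Real.exp (-Real.log (Fintype.card W)) = (Fintype.card W : ℝ)⁻¹ := by
        rw [Real.exp_neg, Real.exp_log hn]
      calc (Fintype.card W : ℝ) * (1 - φ ^ 2 / 4) ^ T ≤
          (Fintype.card W : ℝ) * (Fintype.card W : ℝ)⁻¹ :=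
            mul_le_mul_of_nonneg_left ((h1.trans h2).trans (le_of_eq h3)) hn.le
        _ = 1 := mul_inv_cancel₀ hn.ne'
  linarith

end Pool.Agent.Helper72.SA
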